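import Mathlib

set_option autoImplicit false

namespace Pool.Agent.Y923.PC

open Finset

/-- coprime to a product iff no prime factor divides -/
lemma cop_iff (T : Finset ℕ) (hT : ∀ p ∈ T, p.Prime) (n : ℕ) :
    Nat.Coprime (∏ p ∈ T, p) n ↔ ∀ p ∈ T, ¬ p ∣ n := by
  rw [Nat.coprime_comm]
  constructor
  · intro h p hp hd
    have h1 : p ∣ ∏ p ∈ T, p := dvd_prod_of_mem (fun p => p) hp
    have := Nat.dvd_gcd hd h1
    rw [Nat.Coprime] at h
    rw [h] at this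
    exact (hT p hp).one_lt.ne' (Nat.dvd_one.1 this)
  · intro h
    apply Nat.Coprime.prod_right
    intro p hp
    exact Nat.Coprime.symm ((Nat.Prime.coprime_iff_not_dvd (hT p hp)).2 (h p hp))

/-- number of coprime residues -/
lemma tot (T : Finset ℕ) (hT : ∀ p ∈ T, p.Prime) :
    (Nat.totient (∏ p ∈ T, p) : ℝ) = (∏ p ∈ T, (p : ℝ)) * ∏ p ∈ T, (1 - 1 / (p : ℝ)) := by
  classical
  induction T using Finset.induction_on with
  | empty => simp
  | insert a S ha ih =>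
    have hS : ∀ p ∈ S, p.Prime := fun p hp => hT p (mem_insert_of_mem hp)
    have hap : a.Prime := hT a (mem_insert_self a S)
    rw [prod_insert ha, prod_insert ha, prod_insert ha, Nat.totient_mul, Nat.cast_mul, ih hS,
      Nat.totient_prime hap]
    · have h0 : (a : ℝ) ≠ 0 := by exact_mod_cast hap.ne_zero
      rw [Nat.cast_sub hap.one_le]
      field_simp
      push_cast
      ring
    · apply Nat.Coprime.prod_right
      intro p hp
      exact (Nat.coprime_primes hap (hS p hp)).2 (fun h => ha (h ▸ hp))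

lemma prod_le (T : Finset ℕ) (hT : ∀ p ∈ T, p.Prime) :
    ∏ p ∈ T, (1 - 1 / (p : ℝ)) ≤ Real.exp (-(∑ p ∈ T, (1 / p : ℝ))) := by
  rw [← sum_neg_distrib, Real.exp_sum]
  apply prod_le_prod
  · intro p hp
    have : (1 : ℝ) / p ≤ 1 := by
      rw [div_le_one (by exact_mod_cast (hT p hp).pos)]
      exact_mod_cast (hT p hp).one_le
    linarith
  · intro p hp
    have := Real.add_one_le_exp (-(1 / (p : ℝ)))
    linarith

/-- count of integers up to X coprime to P -/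
lemma cnt (P X : ℕ) (hP : 0 < P) :
    (#{n ∈ range (X + 1) | Nat.Coprime P n}) ≤ Nat.totient P * ((X + 1) / P + 1) := by
  have h := Nat.Ico_filter_coprime_le (a := P) 0 (X + 1) hP.ne'
  simpa using h

/-- the sieve bound -/
theorem siev0 : ∀ T₀ : Set ℕ, (∀ p ∈ T₀, p.Prime) →
    (∀ B : ℝ, ∃ T : Finset ℕ, (∀ p ∈ T, p ∈ T₀) ∧ B ≤ ∑ p ∈ T, (1 / p : ℝ)) →
    ∀ ε : ℝ, 0 < ε → ∃ X₀ : ℕ, ∀ X : ℕ, X₀ ≤ X →
      ({d : ℤ | d.natAbs ≤ X ∧ ∀ p ∈ T₀, ¬ (p : ℤ) ∣ d}.ncard : ℝ) ≤ ε * X := by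
  classical
  intro T₀ hT₀ hdiv ε hε
  obtain ⟨T, hTT, hB⟩ := hdiv (Real.log (8 / ε))
  have hT : ∀ p ∈ T, p.Prime := fun p hp => hT₀ p (hTT p hp)
  obtain ⟨P, hPdef⟩ : ∃ P : ℕ, P = ∏ p ∈ T, p := ⟨_, rfl⟩
  have hP : 0 < P := by
    rw [hPdef]
    exact prod_pos fun p hp => (hT p hp).pos
  have hPR : (0 : ℝ) < P := by exact_mod_cast hP
  have hpe : ∏ p ∈ T, (1 - 1 / (p : ℝ)) ≤ ε / 8 := by
    refine (prod_le T hT).trans ?_
    have h1 : Real.exp (-(∑ p ∈ T, (1 / p : ℝ))) ≤ Real.exp (-(Real.log (8 / ε))) :=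
      Real.exp_le_exp.2 (by linarith)
    refine h1.trans ?_
    rw [Real.exp_neg, Real.exp_log (by positivity), inv_div]
  have htot : (Nat.totient P : ℝ) = P * ∏ p ∈ T, (1 - 1 / (p : ℝ)) := by
    rw [hPdef, tot T hT]
    push_cast
    rfl
  have htle : (Nat.totient P : ℝ) ≤ P := by exact_mod_cast Nat.totient_le P
  obtain ⟨X₀, hX₀⟩ := exists_nat_ge ((ε / 4 + 2 * P) / (ε / 2))
  refine ⟨X₀, fun X hX => ?_⟩
  have hXR : (ε / 4 + 2 * P) / (ε / 2) ≤ X := hX₀.trans (by exact_mod_cast hX)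
  rw [div_le_iff₀ (by positivity)] at hXR
  obtain ⟨F, hF⟩ : ∃ F : Finset ℕ, F = {n ∈ range (X + 1) | Nat.Coprime P n} := ⟨_, rfl⟩
  have hsub : {d : ℤ | d.natAbs ≤ X ∧ ∀ p ∈ T₀, ¬ (p : ℤ) ∣ d} ⊆
      ((F.image (fun n : ℕ => (n : ℤ)) ∪ F.image (fun n : ℕ => -(n : ℤ)) : Finset ℤ) : Set ℤ) := by
    rintro d ⟨hd, hd2⟩
    have hmem : d.natAbs ∈ F := by
      rw [hF, mem_filter, mem_range]
      refine ⟨by omega, ?_⟩
      rw [hPdef, cop_iff T hT]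
      intro p hp hpd
      exact hd2 p (hTT p hp) (Int.natCast_dvd.2 hpd)
    rw [coe_union, coe_image, coe_image]
    rcases Int.natAbs_eq d with h | h
    · exact Or.inl ⟨d.natAbs, hmem, h.symm⟩
    · exact Or.inr ⟨d.natAbs, hmem, h.symm⟩
  have h1 : {d : ℤ | d.natAbs ≤ X ∧ ∀ p ∈ T₀, ¬ (p : ℤ) ∣ d}.ncard ≤ F.card + F.card := by
    refine (Set.ncard_le_ncard hsub (Finset.finite_toSet _)).trans ?_
    rw [Set.ncard_coe_finset]
    exact (card_union_le _ _).trans (Nat.add_le_add card_image_le card_image_le)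
  have h2 : F.card ≤ Nat.totient P * ((X + 1) / P + 1) := by
    rw [hF]
    exact cnt P X hP
  have h3 : (F.card : ℝ) ≤ (Nat.totient P : ℝ) * (((X : ℝ) + 1) / P + 1) := by
    have h4 : (F.card : ℝ) ≤ (Nat.totient P : ℝ) * ((((X + 1) / P : ℕ) : ℝ) + 1) := by
      exact_mod_cast h2
    refine h4.trans (mul_le_mul_of_nonneg_left ?_ (Nat.cast_nonneg _))
    have h5 : (((X + 1) / P : ℕ) : ℝ) ≤ ((X + 1 : ℕ) : ℝ) / (P : ℝ) := Nat.cast_div_le
    push_cast at h5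
    linarith
  have h6 : (Nat.totient P : ℝ) * (((X : ℝ) + 1) / P + 1) ≤ (X + 1) * (ε / 8) + P := by
    have h7 : (Nat.totient P : ℝ) * (((X : ℝ) + 1) / P) =
        (X + 1) * ∏ p ∈ T, (1 - 1 / (p : ℝ)) := by
      rw [htot]
      field_simp
    rw [mul_add, mul_one, h7]
    have h8 : ((X : ℝ) + 1) * ∏ p ∈ T, (1 - 1 / (p : ℝ)) ≤ (X + 1) * (ε / 8) :=
      mul_le_mul_of_nonneg_left hpe (by positivity)
    linarith
  have h9 : ({d : ℤ | d.natAbs ≤ X ∧ ∀ p ∈ T₀, ¬ (p : ℤ) ∣ d}.ncard : ℝ) ≤ F.card + F.card := by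
    exact_mod_cast h1
  nlinarith

end Pool.Agent.Y923.PC
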