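import Pool.Agent.Y157.PC.Stm
import Pool.Agent.Y923.PC.Siev0

/-!
# PC-SIEV: integers without prime factors in a large set of primes have density zero
-/

set_option autoImplicit false

namespace Pool.Agent.Y923.PC

theorem siev : Pool.Agent.Y157.PC.S_SIEV := siev0

end Pool.Agent.Y923.PC
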